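import Pool.Agent.NH7.BK.Stms
import Pool.Agent.NH7.GU.BbP
import Pool.Agent.NH7.GH.Defs
import Pool.Agent.NH7.GH.CorDP
import Pool.Agent.NH7.GU.CycP
import Pool.Agent.NH7.BK.CorP
import Pool.Agent.NH7.BK.CorOP
import Pool.Agent.NH7.BK.CorZP

/-!
# The criterion for all primes `p` (for `p = 2` the representations are trivial modulo `4`)
-/

set_option autoImplicit false
set_option linter.unusedSectionVars false

namespace Pool.Agent.NH7.GH.P2

open Filter Topology
open Pool.Agent.NH7.GU (Cyc Chr bb_nhds bb_zpow_add bb_dvd_p)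
open Pool.Agent.NH7.BK (Pl Rp CocV SelV IsV toO)

section d

variable {p : ℕ} [hp : Fact p.Prime] {G : Type} [Group G] [TopologicalSpace G] {d : Pl G} {N : ℕ}

/-- for `p = 2` the representation is trivial modulo `4` -/
def F4 (R : Rp p d N) : Prop := p = 2 → ∀ g i j, (4 : ℤ_[p]) ∣ (R.ρ g - 1) i j

/-- `χ` generates the residual Selmer group -/
def MinU (d : Pl G) (c : Chr p G) : Prop :=
  ∀ x : G → ZMod p, Continuous x → (∀ g h, x (g * h) = x g + x h) →
    (∀ i, (∀ g ∈ d.I i, c.χ g = 0) → ∀ g ∈ d.I i, x g = 0) →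
    (∀ i, (∃ g ∈ d.I i, c.χ g ≠ 0) → ∃ a : ZMod p, ∀ g ∈ d.DI i, x g = a * c.χ g) →
    (∀ k, ∃ a : ZMod p, ∀ g ∈ d.D k, x g = a * c.χ g) →
    ∃ a : ZMod p, ∀ g, x g = a * c.χ g

end d

/-- A1. The coboundaries divided by `ζ - 1`. -/
def S_bt : Prop := ∀ (p : ℕ) [Fact p.Prime] (O : Type) [CommRing O] [Algebra ℤ_[p] O] (C : Cyc p O)
  (G : Type) [Group G] [TopologicalSpace G] [IsTopologicalGroup G] (d : Pl G) (c : Chr p G) (N : ℕ)
  (R : Rp p d N) (t : Fin N → O), F4 R → ∃ b : G → Fin N → O,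
    (∀ g, (C.z - 1) • b g = C.z ^ (c.χ g).val • (R.mO O g).mulVec t - t) ∧
    (∀ g j, C.ev (b g j) = c.χ g * C.ev (t j)) ∧ IsV C c R b

/-- A2. The condition at the ramified tame inertia groups. -/
def S_tame : Prop := ∀ (p : ℕ) [Fact p.Prime] (O : Type) [CommRing O] [Algebra ℤ_[p] O]
  (C : Cyc p O) (G : Type) [Group G] [TopologicalSpace G] [IsTopologicalGroup G] (d : Pl G)
  (c : Chr p G) (N : ℕ) (R : Rp p d N) (F : G → Fin N → O), F4 R → IsV C c R F →
  ∀ i, (∃ g ∈ d.I i, c.χ g ≠ 0) →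
    ∃ a : Fin N → ZMod p, ∀ g ∈ d.DI i, ∀ j, C.ev (F g j) = a j * c.χ g

/-- A3. The condition at the strict decomposition groups, on which `χ` is not trivial. -/
def S_str : Prop := ∀ (p : ℕ) [Fact p.Prime] (O : Type) [CommRing O] [Algebra ℤ_[p] O]
  (C : Cyc p O) (G : Type) [Group G] [TopologicalSpace G] [IsTopologicalGroup G] (d : Pl G)
  (c : Chr p G) (N : ℕ) (R : Rp p d N) (F : G → Fin N → O), F4 R → IsV C c R F →
  ∀ k, (∃ g ∈ d.D k, c.χ g ≠ 0) →
    ∃ a : Fin N → ZMod p, ∀ g ∈ d.D k, ∀ j, C.ev (F g j) = a j * c.χ g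

/-- A5. The criterion. -/
def S_crit : Prop := ∀ (p : ℕ) [Fact p.Prime] (O : Type) [CommRing O] [Algebra ℤ_[p] O]
  (C : Cyc p O) (G : Type) [Group G] [TopologicalSpace G] [IsTopologicalGroup G] (d : Pl G)
  (c : Chr p G) (N : ℕ) (R : Rp p d N) (F : G → Fin N → O), F4 R →
  (∀ k, ∃ g ∈ d.D k, c.χ g ≠ 0) → MinU d c → IsV C c R F →
    ∃ t : Fin N → O, ∀ g, (C.z - 1) • F g = C.z ^ (c.χ g).val • (R.mO O g).mulVec t - t




section bt

variable {p : ℕ} [hp : Fact p.Prime] {G : Type} [Group G] [TopologicalSpace G] {d : Pl G} {N : ℕ}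
  {O : Type} [CommRing O] [Algebra ℤ_[p] O]

theorem bt_mO_mul (R : Rp p d N) (g h : G) : R.mO O (g * h) = R.mO O g * R.mO O h := by
  unfold Rp.mO
  rw [map_mul]
  exact Matrix.map_mul

theorem bt_mO_one (R : Rp p d N) (g : G) (h : R.ρ g = 1) : R.mO O g = 1 := by
  unfold Rp.mO
  rw [h]
  exact Matrix.map_one _ (map_zero _) (map_one _)

theorem bt_cancel (C : Cyc p O) {x y : Fin N → O} (h : (C.z - 1) • x = (C.z - 1) • y) : x = y := by
  funext i
  have h1 : (C.z - 1) * x i = (C.z - 1) * y i := congrFun h i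
  have := C.inj (x i - y i) (by rw [mul_sub, h1, sub_self])
  exact sub_eq_zero.1 this

theorem bt_apply (R : Rp p d N) (t : Fin N → O) (g : G) (i : Fin N) :
    (R.mO O g).mulVec t i = ∑ j, algebraMap ℤ_[p] O (R.ρ g i j) * t j := rfl

theorem bt_dvd (C : Cyc p O) (R : Rp p d N) (hp2 : F4 R) (t : Fin N → O) (g : G) (i : Fin N) :
    (C.z - 1) ^ 2 ∣ (R.mO O g).mulVec t i - t i := by
  have e : (R.mO O g).mulVec t i - t i =
      ∑ j, algebraMap ℤ_[p] O ((R.ρ g - 1) i j) * t j := by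
    have h1 : t i = ∑ j, (if i = j then (1 : O) else 0) * t j := by
      simp
    rw [bt_apply]
    conv_lhs => rw [h1]
    rw [← Finset.sum_sub_distrib]
    refine Finset.sum_congr rfl fun j _ => ?_
    rw [Matrix.sub_apply, map_sub, Matrix.one_apply]
    split_ifs
    · rw [map_one]; ring
    · rw [map_zero]; ring
  rw [e]
  refine Finset.dvd_sum fun j _ => Dvd.dvd.mul_right ?_ _
  exact C.sq _ (R.one g i j) (fun h => hp2 h g i j)

end bt

/-- (A1) -/
theorem s_bt : S_bt := by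
  intro p _ O _ _ C G _ _ _ d c N R t hp2
  choose s hs using bt_dvd C R hp2 t
  let b : G → Fin N → O := fun g i => (∑ k ∈ Finset.range (c.χ g).val, C.z ^ k) *
    (R.mO O g).mulVec t i + (C.z - 1) * s g i
  have hb' : ∀ g i, (C.z - 1) * b g i = C.z ^ (c.χ g).val * (R.mO O g).mulVec t i - t i := by
    intro g i
    have h1 : (C.z - 1) * ∑ k ∈ Finset.range (c.χ g).val, C.z ^ k = C.z ^ (c.χ g).val - 1 :=
      mul_geom_sum C.z _
    have h2 := hs g i
    change (C.z - 1) * ((∑ k ∈ Finset.range (c.χ g).val, C.z ^ k) *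
      (R.mO O g).mulVec t i + (C.z - 1) * s g i) = _
    linear_combination (R.mO O g).mulVec t i * h1 - h2
  have hb : ∀ g, (C.z - 1) • b g = C.z ^ (c.χ g).val • (R.mO O g).mulVec t - t := by
    intro g
    funext i
    exact hb' g i
  have hev : ∀ g j, C.ev (b g j) = c.χ g * C.ev (t j) := by
    intro g i
    change C.ev ((∑ k ∈ Finset.range (c.χ g).val, C.z ^ k) *
      (R.mO O g).mulVec t i + (C.z - 1) * s g i) = _
    have h1 : C.ev ((R.mO O g).mulVec t i) = C.ev (t i) := by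
      have h2 := congrArg C.ev (hs g i)
      rw [map_sub, map_mul, map_pow, map_sub, map_one, C.ev_z, sub_self, zero_pow two_ne_zero,
        zero_mul] at h2
      exact sub_eq_zero.1 h2
    rw [map_add, map_mul, map_mul, map_sub, map_one, C.ev_z, sub_self, zero_mul, add_zero, h1,
      map_sum]
    simp only [map_pow, C.ev_z, one_pow, Finset.sum_const, Finset.card_range, nsmul_eq_mul, mul_one]
    rw [ZMod.natCast_zmod_val]
  refine ⟨b, hb, hev, ?_, ?_, ?_, ?_⟩
  · intro n g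
    have h1 : ∀ᶠ h in 𝓝 g, c.χ h = c.χ g :=
      c.c.continuousAt.eventually ((isOpen_discrete {c.χ g}).mem_nhds rfl)
    have h2 : ∀ᶠ h in 𝓝 g, ∀ i j, (p : ℤ_[p]) ^ (n + 1) ∣ R.ρ h i j - R.ρ g i j := by
      rw [eventually_all]
      intro i
      rw [eventually_all]
      intro j
      have hc : Continuous fun h => R.ρ h i j :=
        (continuous_apply j).comp ((continuous_apply i).comp R.cont)
      exact hc.continuousAt.eventually (bb_nhds (R.ρ g i j) (n + 1))
    filter_upwards [h1, h2] with h hh1 hh2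
    intro i
    have h3 : (C.z - 1) ^ (n + 1) ∣ (R.mO O h).mulVec t i - (R.mO O g).mulVec t i := by
      have e : (R.mO O h).mulVec t i - (R.mO O g).mulVec t i =
          ∑ j, algebraMap ℤ_[p] O (R.ρ h i j - R.ρ g i j) * t j := by
        rw [bt_apply, bt_apply, ← Finset.sum_sub_distrib]
        refine Finset.sum_congr rfl fun j _ => ?_
        rw [map_sub]
        ring
      rw [e]
      exact Finset.dvd_sum fun j _ => Dvd.dvd.mul_right (bb_dvd_p C (n + 1) _ (hh2 i j)) _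
    obtain ⟨y, hy⟩ := h3
    refine ⟨C.z ^ (c.χ g).val * y, ?_⟩
    have h4 := C.inj (b h i - b g i - (C.z - 1) ^ n * (C.z ^ (c.χ g).val * y)) (by
      have e1 := hb' h i
      have e2 := hb' g i
      rw [hh1] at e1
      linear_combination e1 - e2 + C.z ^ (c.χ g).val * hy)
    exact sub_eq_zero.1 h4
  · intro g h
    apply bt_cancel C
    have e3 : (C.z - 1) • (R.mO O g).mulVec (b h) = (R.mO O g).mulVec ((C.z - 1) • b h) :=
      (Matrix.mulVec_smul _ _ _).symm
    rw [smul_add, hb, hb, c.m, bb_zpow_add, bt_mO_mul, smul_comm (C.z - 1), e3,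
      hb h, Matrix.mulVec_sub, Matrix.mulVec_smul, Matrix.mulVec_mulVec, smul_sub, mul_smul]
    abel
  · intro i g hg hχ
    apply bt_cancel C
    rw [hb, hχ, ZMod.val_zero, pow_zero, one_smul, bt_mO_one R g (R.triv i g hg), Matrix.one_mulVec,
      sub_self, smul_zero]
  · intro k
    refine ⟨1, t, fun g hg hχ => ?_⟩
    rw [pow_one, hb, hχ, ZMod.val_zero, pow_zero, one_smul]




section common

variable {p : ℕ} [hp : Fact p.Prime] {G : Type} [Group G] [TopologicalSpace G] {d : Pl G} {N : ℕ}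
variable {O : Type} [CommRing O] [Algebra ℤ_[p] O]

theorem chi_one (c : Chr p G) : c.χ 1 = 0 := c.mem_ker.1 c.ker.one_mem

theorem chi_inv (c : Chr p G) (g : G) : c.χ g⁻¹ = - c.χ g := by
  have h := c.m g⁻¹ g
  rw [inv_mul_cancel, chi_one] at h
  exact eq_neg_of_add_eq_zero_left h.symm

theorem chi_pow (c : Chr p G) (g : G) (n : ℕ) : c.χ (g ^ n) = n * c.χ g := by
  induction n with
  | zero => rw [pow_zero, chi_one, Nat.cast_zero, zero_mul]
  | succ n ih => rw [pow_succ, c.m, ih]; push_cast; ring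

theorem chi_conj (c : Chr p G) (g h : G) : c.χ (g * h * g⁻¹) = c.χ h := by
  rw [c.m, c.m, chi_inv]
  ring

theorem mO_one_of (R : Rp p d N) {g : G} (h : R.ρ g = 1) : R.mO O g = 1 := by
  rw [Rp.mO, h]
  exact Matrix.map_one _ (map_zero _) (map_one _)

theorem mO_one (R : Rp p d N) : R.mO O (1 : G) = 1 := mO_one_of R (map_one _)

/-- the cocycle law -/
def IsC (C : Cyc p O) (c : Chr p G) (R : Rp p d N) (F : G → Fin N → O) : Prop :=
  ∀ g h, F (g * h) = F g + C.z ^ (c.χ g).val • (R.mO O g).mulVec (F h)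

theorem IsC.sub {C : Cyc p O} {c : Chr p G} {R : Rp p d N} {F b : G → Fin N → O}
    (hF : IsC C c R F) (hb : IsC C c R b) : IsC C c R (fun g => F g - b g) := by
  intro g h
  simp only
  rw [hF, hb, Matrix.mulVec_sub, smul_sub]
  abel

theorem IsC.one {C : Cyc p O} {c : Chr p G} {R : Rp p d N} {F : G → Fin N → O}
    (hF : IsC C c R F) : F 1 = 0 := by
  have h := hF 1 1
  rw [mul_one, chi_one, ZMod.val_zero, pow_zero, one_smul, mO_one, Matrix.one_mulVec] at h
  exact left_eq_add.1 h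

theorem IsC.pow {C : Cyc p O} {c : Chr p G} {R : Rp p d N} {F : G → Fin N → O}
    (hF : IsC C c R F) {s : G} (hs : F s = 0) (n : ℕ) : F (s ^ n) = 0 := by
  induction n with
  | zero => rw [pow_zero, hF.one]
  | succ n ih => rw [pow_succ, hF, ih, hs, Matrix.mulVec_zero, smul_zero, add_zero]

/-- every element is a product of an element of the kernel and a power of `s` -/
theorem split_ker (c : Chr p G) (D : Subgroup G) {s : G} (hs : s ∈ D) (h0 : c.χ s ≠ 0) {g : G}
    (hg : g ∈ D) : ∃ (h : G) (n : ℕ), h ∈ D ∧ c.χ h = 0 ∧ g = h * s ^ n := by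
  refine ⟨g * (s ^ (c.χ g / c.χ s).val)⁻¹, (c.χ g / c.χ s).val,
    D.mul_mem hg (D.inv_mem (D.pow_mem hs _)), ?_, ?_⟩
  · rw [c.m, chi_inv, chi_pow, ZMod.natCast_val, ZMod.cast_id', id, div_mul_cancel₀ _ h0]
    ring
  · rw [inv_mul_cancel_right]

theorem IsC.zero_on {C : Cyc p O} {c : Chr p G} {R : Rp p d N} {F : G → Fin N → O}
    (hF : IsC C c R F) (D : Subgroup G) {s : G} (hs : s ∈ D) (h0 : c.χ s ≠ 0) (hFs : F s = 0)
    (hker : ∀ h ∈ D, c.χ h = 0 → F h = 0) : ∀ g ∈ D, F g = 0 := by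
  intro g hg
  obtain ⟨h, n, h1, h2, h3⟩ := split_ker c D hs h0 hg
  rw [h3, hF, hF.pow hFs, hker h h1 h2, Matrix.mulVec_zero, smul_zero, add_zero]

/-- an element on which `χ` takes the value one -/
theorem exists_chi_one (c : Chr p G) (D : Subgroup G) (h : ∃ g ∈ D, c.χ g ≠ 0) :
    ∃ g ∈ D, c.χ g = 1 := by
  obtain ⟨g, hg, h0⟩ := h
  refine ⟨g ^ ((c.χ g)⁻¹).val, D.pow_mem hg _, ?_⟩
  rw [chi_pow, ZMod.natCast_val, ZMod.cast_id', id, inv_mul_cancel₀ h0]

theorem inj_vec (C : Cyc p O) {x : Fin N → O} (h : (C.z - 1) • x = 0) : x = 0 := by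
  funext j
  apply C.inj
  have := congrFun h j
  simpa using this

theorem inj_pow_vec (C : Cyc p O) (n : ℕ) {x : Fin N → O} (h : (C.z - 1) ^ n • x = 0) : x = 0 := by
  induction n with
  | zero => rwa [pow_zero, one_smul] at h
  | succ n ih =>
    apply ih
    apply inj_vec C
    rw [smul_smul, ← pow_succ', h]

end common

theorem s_tame (hb : S_bt) : S_tame := by
  intro p hp O _ _ C G _ _ _ d c N R F hp2 hF i hi
  obtain ⟨τ, hτ, h1⟩ := exists_chi_one c (d.I i) hi
  obtain ⟨b, hb1, hb2, hb3⟩ := hb p O C G d c N R (F τ) hp2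
  have : Fact (1 < p) := ⟨hp.out.one_lt⟩
  have h0 : c.χ τ ≠ 0 := by rw [h1]; exact one_ne_zero
  have hv : (c.χ τ).val = 1 := by rw [h1]; exact ZMod.val_one p
  have hC : IsC C c R (fun g => F g - b g) := IsC.sub hF.mul hb3.mul
  have hbτ : F τ - b τ = 0 := by
    apply inj_vec C
    rw [smul_sub, hb1, hv, pow_one, mO_one_of R (R.triv i τ hτ), Matrix.one_mulVec, sub_smul,
      one_smul, sub_self]
  have hI : ∀ g ∈ d.I i, F g - b g = 0 := by
    refine hC.zero_on (d.I i) hτ h0 hbτ ?_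
    intro h k1 k2
    rw [hF.away i h k1 k2, hb3.away i h k1 k2, sub_zero]
  have hz : ∀ g ∈ d.DI i, F g - b g = 0 := by
    intro g hg
    have hx := d.I_nor i g hg τ hτ
    have e1 := hC g τ
    have e2 := hC (g * τ * g⁻¹) g
    rw [inv_mul_cancel_right] at e2
    simp only at e1 e2
    rw [hbτ, Matrix.mulVec_zero, smul_zero, add_zero] at e1
    rw [hI _ hx, zero_add, e1, chi_conj, hv, pow_one, mO_one_of R (R.triv i _ hx),
      Matrix.one_mulVec] at e2
    apply inj_vec C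
    rw [sub_smul, one_smul, ← e2, sub_self]
  refine ⟨fun j => C.ev (F τ j), fun g hg j => ?_⟩
  rw [sub_eq_zero.1 (hz g hg), hb2, mul_comm]




namespace StrP

variable {p : ℕ} [hp : Fact p.Prime] {G : Type} [Group G] [TopologicalSpace G]

theorem chi_one (c : Chr p G) : c.χ 1 = 0 := by
  have h := c.m 1 1
  rw [mul_one] at h
  exact left_eq_add.1 h

theorem chi_inv (c : Chr p G) (g : G) : c.χ g⁻¹ = -c.χ g := by
  have h := c.m g⁻¹ g
  rw [inv_mul_cancel, chi_one] at h
  exact eq_neg_of_add_eq_zero_left h.symm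

theorem chi_pow (c : Chr p G) (s : G) (k : ℕ) : c.χ (s ^ k) = k * c.χ s := by
  induction k with
  | zero => rw [pow_zero, chi_one, Nat.cast_zero, zero_mul]
  | succ k ih => rw [pow_succ, c.m, ih, Nat.cast_succ]; ring

variable {O : Type} [CommRing O] [Algebra ℤ_[p] O]

theorem inj_pow (C : Cyc p O) (n : ℕ) (x : O) (h : (C.z - 1) ^ n * x = 0) : x = 0 := by
  induction n with
  | zero => rwa [pow_zero, one_mul] at h
  | succ n ih =>
    apply ih
    apply C.inj
    rw [← mul_assoc, ← pow_succ']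
    exact h

theorem inj_vec (C : Cyc p O) {N : ℕ} (n : ℕ) (x : Fin N → O) (h : (C.z - 1) ^ n • x = 0) :
    x = 0 := by
  funext j
  exact inj_pow C n _ (congrFun h j)

variable {d : Pl G} {N : ℕ}

theorem mO_mul (R : Rp p d N) (g h : G) : R.mO O (g * h) = R.mO O g * R.mO O h := by
  unfold Rp.mO
  rw [map_mul, Matrix.map_mul]

theorem mO_sub (R : Rp p d N) (g : G) (i j : Fin N) :
    algebraMap ℤ_[p] O ((R.ρ g - 1) i j) = R.mO O g i j - (1 : Matrix (Fin N) (Fin N) O) i j := by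
  rw [Matrix.sub_apply, map_sub]
  congr 1
  rw [Matrix.one_apply, Matrix.one_apply]
  split_ifs
  · exact map_one _
  · exact map_zero _

theorem ev_mO (C : Cyc p O) (R : Rp p d N) (g : G) (i j : Fin N) :
    C.ev (R.mO O g i j) = (1 : Matrix (Fin N) (Fin N) (ZMod p)) i j := by
  have h1 : C.ev (algebraMap ℤ_[p] O ((R.ρ g - 1) i j)) = 0 := by
    obtain ⟨y, hy⟩ := R.one g i j
    rw [hy, C.ev_int, map_mul, map_natCast, CharP.cast_eq_zero, zero_mul]
  rw [mO_sub, map_sub, sub_eq_zero] at h1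
  rw [h1, Matrix.one_apply, Matrix.one_apply]
  split_ifs
  · exact map_one _
  · exact map_zero _

/-- the matrix `U` -/
theorem exU (C : Cyc p O) (R : Rp p d N) (hp2 : F4 R) (s : G) :
    ∃ U : Matrix (Fin N) (Fin N) O, C.z • R.mO O s - 1 = (C.z - 1) • U ∧ IsUnit U.det := by
  have h1 : ∀ i j, ∃ y, R.mO O s i j - (1 : Matrix (Fin N) (Fin N) O) i j = (C.z - 1) ^ 2 * y := by
    intro i j
    rw [← mO_sub]
    exact C.sq _ (R.one s i j) fun h => hp2 h s i j
  choose y hy using h1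
  refine ⟨Matrix.of fun i j => R.mO O s i j + (C.z - 1) * y i j, ?_, ?_⟩
  · ext i j
    rw [Matrix.sub_apply, Matrix.smul_apply, Matrix.smul_apply, Matrix.of_apply, smul_eq_mul,
      smul_eq_mul]
    linear_combination hy i j
  · apply C.unit
    rw [RingHom.map_det]
    have h2 : C.ev.mapMatrix (Matrix.of fun i j => R.mO O s i j + (C.z - 1) * y i j) = 1 := by
      ext i j
      rw [RingHom.mapMatrix_apply, Matrix.map_apply, Matrix.of_apply, map_add, map_mul, map_sub,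
        C.ev_z, map_one, sub_self, zero_mul, add_zero, ev_mO]
    rw [h2, Matrix.det_one]
    exact one_ne_zero

/-- the fixed vectors -/
def W (R : Rp p d N) (c : Chr p G) (O : Type) [CommRing O] [Algebra ℤ_[p] O] (D : Subgroup G) :
    Submodule O (Fin N → O) where
  carrier := {w | ∀ h ∈ D, c.χ h = 0 → (R.mO O h).mulVec w = w}
  add_mem' := by
    intro a b ha hb h hh hc
    rw [Matrix.mulVec_add, ha h hh hc, hb h hh hc]
  zero_mem' := by
    intro h _ _
    exact Matrix.mulVec_zero _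
  smul_mem' := by
    intro a b hb h hh hc
    rw [Matrix.mulVec_smul, hb h hh hc]

theorem mem_W {R : Rp p d N} {c : Chr p G} {D : Subgroup G} {w : Fin N → O} :
    w ∈ W R c O D ↔ ∀ h ∈ D, c.χ h = 0 → (R.mO O h).mulVec w = w := Iff.rfl

theorem W_rho (R : Rp p d N) (c : Chr p G) (D : Subgroup G) {s : G} (hs : s ∈ D)
    {w : Fin N → O} (hw : w ∈ W R c O D) : (R.mO O s).mulVec w ∈ W R c O D := by
  rw [mem_W] at hw ⊢
  intro h hh hc
  have h1 := hw (s⁻¹ * h * s) (D.mul_mem (D.mul_mem (D.inv_mem hs) hh) hs) (by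
    rw [c.m, c.m, chi_inv, hc]
    ring)
  have h2 : R.mO O h * R.mO O s = R.mO O s * R.mO O (s⁻¹ * h * s) := by
    rw [← mO_mul, ← mO_mul]
    congr 1
    group
  rw [Matrix.mulVec_mulVec, h2, ← Matrix.mulVec_mulVec, h1]

/-- Cayley-Hamilton: a vector whose image by a matrix with unit determinant lies in a stable
submodule lies in this submodule -/
theorem back (U : Matrix (Fin N) (Fin N) O) (hU : IsUnit U.det) (V : Submodule O (Fin N → O))
    (hV : ∀ w ∈ V, U.mulVec w ∈ V) (t : Fin N → O) (ht : U.mulVec t ∈ V) : t ∈ V := by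
  have hpow : ∀ (k : ℕ), ∀ w ∈ V, (U ^ k).mulVec w ∈ V := by
    intro k
    induction k with
    | zero =>
      intro w hw
      rw [pow_zero, Matrix.one_mulVec]
      exact hw
    | succ k ih =>
      intro w hw
      rw [pow_succ, ← Matrix.mulVec_mulVec]
      exact ih _ (hV w hw)
  have hpol : ∀ (P : Polynomial O), ∀ w ∈ V, (Polynomial.aeval U P).mulVec w ∈ V := by
    intro P w hw
    induction P using Polynomial.induction_on' with
    | add P Q hP hQ =>
      rw [map_add, Matrix.add_mulVec]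
      exact V.add_mem hP hQ
    | monomial n a =>
      rw [Polynomial.aeval_monomial, ← Algebra.smul_def, Matrix.smul_mulVec]
      exact V.smul_mem _ (hpow n w hw)
  have h1 := Matrix.aeval_self_charpoly U
  rw [← Polynomial.divX_mul_X_add U.charpoly, map_add, map_mul, Polynomial.aeval_X,
    Polynomial.aeval_C] at h1
  have h2 : (Polynomial.aeval U U.charpoly.divX).mulVec (U.mulVec t) +
      U.charpoly.coeff 0 • t = 0 := by
    have h3 := congrArg (fun A : Matrix (Fin N) (Fin N) O => A.mulVec t) h1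
    rw [Matrix.add_mulVec, ← Matrix.mulVec_mulVec, Matrix.zero_mulVec, Algebra.algebraMap_eq_smul_one,
      Matrix.smul_mulVec, Matrix.one_mulVec] at h3
    exact h3
  have h4 : U.charpoly.coeff 0 • t ∈ V := by
    have h5 := V.neg_mem (hpol U.charpoly.divX _ ht)
    rwa [← eq_neg_of_add_eq_zero_right h2] at h5
  have h6 : IsUnit (U.charpoly.coeff 0) := by
    rw [Matrix.det_eq_sign_charpoly_coeff] at hU
    exact isUnit_of_mul_isUnit_right hU
  obtain ⟨u, hu⟩ := h6
  rw [← hu] at h4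
  have h7 := V.smul_mem ((u⁻¹ : Oˣ) : O) h4
  rwa [smul_smul, Units.inv_mul, one_smul] at h7

end StrP

open StrP in
/-- A3. The condition at the strict decomposition groups, on which `χ` is not trivial. -/
theorem s_str (hb : S_bt) : S_str := by
  intro p hp O _ _ C G _ _ _ d c N R F hp2 hF k ⟨s0, hs0, hc0⟩
  obtain ⟨s, hs, hcs⟩ : ∃ s ∈ d.D k, c.χ s = 1 := by
    refine ⟨s0 ^ ((c.χ s0)⁻¹).val, (d.D k).pow_mem hs0 _, ?_⟩
    rw [chi_pow, ZMod.natCast_zmod_val, inv_mul_cancel₀ hc0]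
  obtain ⟨U, hU1, hU2⟩ := exU C R hp2 s
  obtain ⟨t, ht⟩ : ∃ t : Fin N → O, U.mulVec t = F s := by
    refine ⟨U⁻¹.mulVec (F s), ?_⟩
    rw [Matrix.mulVec_mulVec, Matrix.mul_nonsing_inv _ hU2, Matrix.one_mulVec]
  obtain ⟨b, hb1, hb2, hb3⟩ := hb p O C G d c N R t hp2
  have hMU : ∀ w : Fin N → O, C.z • (R.mO O s).mulVec w - w = (C.z - 1) • U.mulVec w := by
    intro w
    have h1 := congrArg (fun A : Matrix (Fin N) (Fin N) O => A.mulVec w) hU1
    rw [Matrix.sub_mulVec, Matrix.smul_mulVec, Matrix.one_mulVec, Matrix.smul_mulVec] at h1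
    exact h1
  have hv1 : (1 : ZMod p).val = 1 := ZMod.val_one p
  have hbs : b s = F s := by
    have h1 := hb1 s
    rw [hcs, hv1, pow_one, hMU, ht, ← sub_eq_zero, ← smul_sub] at h1
    have h2 := StrP.inj_vec C 1 _ (by rwa [pow_one])
    exact sub_eq_zero.1 h2
  obtain ⟨E, hE⟩ : ∃ E : G → Fin N → O, ∀ g, E g = F g - b g := ⟨_, fun _ => rfl⟩
  have hEm : ∀ g h, E (g * h) = E g + C.z ^ (c.χ g).val • (R.mO O g).mulVec (E h) := by
    intro g h
    rw [hE, hE, hE, hF.mul, hb3.mul, Matrix.mulVec_sub, smul_sub]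
    abel
  have hEs : E s = 0 := by rw [hE, hbs, sub_self]
  have hm0 : ∀ g h, c.χ g = 0 → E (g * h) = E g + (R.mO O g).mulVec (E h) := by
    intro g h hg
    rw [hEm, hg, ZMod.val_zero, pow_zero, one_smul]
  obtain ⟨n1, t1, hn1⟩ := hF.strict k
  obtain ⟨n2, t2, hn2⟩ := hb3.strict k
  obtain ⟨t', ht'⟩ : ∃ t' : Fin N → O, t' = (C.z - 1) ^ n2 • t1 - (C.z - 1) ^ n1 • t2 := ⟨_, rfl⟩
  have hn : ∀ g ∈ d.D k, c.χ g = 0 →
      (C.z - 1) ^ (n1 + n2) • E g = (R.mO O g).mulVec t' - t' := by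
    intro g hg hg0
    have e1 := hn1 g hg hg0
    have e2 := hn2 g hg hg0
    rw [ht', Matrix.mulVec_sub, Matrix.mulVec_smul, Matrix.mulVec_smul, hE, smul_sub]
    have e3 : (C.z - 1) ^ (n1 + n2) • F g = (C.z - 1) ^ n2 • ((R.mO O g).mulVec t1 - t1) := by
      rw [← e1, smul_smul, ← pow_add, add_comm n2]
    have e4 : (C.z - 1) ^ (n1 + n2) • b g = (C.z - 1) ^ n1 • ((R.mO O g).mulVec t2 - t2) := by
      rw [← e2, smul_smul, ← pow_add]
    rw [e3, e4, smul_sub, smul_sub]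
    abel
  -- the conjugates
  have hconj : ∀ h ∈ d.D k, c.χ h = 0 → E (s * h * s⁻¹) = C.z • (R.mO O s).mulVec (E h) := by
    intro h hh hh0
    have hx0 : c.χ (s * h * s⁻¹) = 0 := by
      rw [c.m, c.m, chi_inv, hh0]
      ring
    have e1 := hEm s h
    rw [hEs, zero_add, hcs, hv1, pow_one] at e1
    have e2 := hm0 (s * h * s⁻¹) s hx0
    rw [inv_mul_cancel_right, hEs, Matrix.mulVec_zero, add_zero, e1] at e2
    exact e2.symm
  have hMt : U.mulVec t' ∈ W R c O (d.D k) := by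
    rw [mem_W]
    intro h' hh' hh0'
    obtain ⟨h, hh⟩ : ∃ h, h = s⁻¹ * h' * s := ⟨_, rfl⟩
    have hhD : h ∈ d.D k := by
      rw [hh]
      exact (d.D k).mul_mem ((d.D k).mul_mem ((d.D k).inv_mem hs) hh') hs
    have hh0 : c.χ h = 0 := by
      rw [hh, c.m, c.m, chi_inv, hh0']
      ring
    have hsh : s * h * s⁻¹ = h' := by
      rw [hh]
      group
    have e1 := hconj h hhD hh0
    rw [hsh] at e1
    have e2 := hn h' hh' hh0'
    rw [e1, smul_comm, ← Matrix.mulVec_smul, hn h hhD hh0] at e2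
    have e3 : R.mO O s * R.mO O h = R.mO O h' * R.mO O s := by
      rw [← mO_mul, ← mO_mul, ← hsh, inv_mul_cancel_right]
    rw [Matrix.mulVec_sub, Matrix.mulVec_mulVec, e3, ← Matrix.mulVec_mulVec, smul_sub] at e2
    -- e2 : z • mO h' (mO s t') - z • mO s t' = mO h' t' - t'
    have e4 : (R.mO O h').mulVec (C.z • (R.mO O s).mulVec t' - t') =
        C.z • (R.mO O s).mulVec t' - t' := by
      rw [Matrix.mulVec_sub, Matrix.mulVec_smul]
      have e5 : C.z • (R.mO O h').mulVec ((R.mO O s).mulVec t') - (R.mO O h').mulVec t' -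
          (C.z • (R.mO O s).mulVec t' - t') =
          (C.z • (R.mO O h').mulVec ((R.mO O s).mulVec t') - C.z • (R.mO O s).mulVec t') -
            ((R.mO O h').mulVec t' - t') := by abel
      rw [← sub_eq_zero, e5, e2, sub_self]
    rw [hMU, Matrix.mulVec_smul, ← sub_eq_zero, ← smul_sub] at e4
    exact sub_eq_zero.1 (StrP.inj_vec C 1 _ (by rwa [pow_one]))
  have hstab : ∀ w ∈ W R c O (d.D k), U.mulVec w ∈ W R c O (d.D k) := by
    intro w hw
    have h1 : (C.z - 1) • U.mulVec w ∈ W R c O (d.D k) := by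
      rw [← hMU]
      exact Submodule.sub_mem _ (Submodule.smul_mem _ _ (W_rho R c _ hs hw)) hw
    rw [mem_W] at h1 ⊢
    intro h hh hc
    have h2 := h1 h hh hc
    rw [Matrix.mulVec_smul, ← sub_eq_zero, ← smul_sub] at h2
    exact sub_eq_zero.1 (StrP.inj_vec C 1 _ (by rwa [pow_one]))
  have htW := back U hU2 _ hstab t' hMt
  rw [mem_W] at htW
  have hE0 : ∀ h ∈ d.D k, c.χ h = 0 → E h = 0 := by
    intro h hh hc
    have h1 := hn h hh hc
    rw [htW h hh hc, sub_self] at h1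
    exact StrP.inj_vec C _ _ h1
  have hEpow : ∀ n : ℕ, E (s ^ n) = 0 := by
    intro n
    induction n with
    | zero =>
      rw [pow_zero]
      exact hE0 1 (d.D k).one_mem (chi_one c)
    | succ n ih => rw [pow_succ, hEm, ih, hEs, Matrix.mulVec_zero, smul_zero, add_zero]
  have hED : ∀ g ∈ d.D k, E g = 0 := by
    intro g hg
    have h1 : g = (g * (s ^ (c.χ g).val)⁻¹) * s ^ (c.χ g).val := by group
    have h2 : c.χ (g * (s ^ (c.χ g).val)⁻¹) = 0 := by
      rw [c.m, chi_inv, chi_pow, hcs, ZMod.natCast_zmod_val]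
      ring
    rw [h1, hEm, hE0 _ ((d.D k).mul_mem hg ((d.D k).inv_mem ((d.D k).pow_mem hs _))) h2, hEpow,
      Matrix.mulVec_zero, smul_zero, add_zero]
  refine ⟨fun j => C.ev (t j), fun g hg j => ?_⟩
  have h1 := hED g hg
  rw [hE] at h1
  rw [sub_eq_zero.1 h1, hb2, mul_comm]




namespace CritP

section

variable {p : ℕ} [hp : Fact p.Prime] {O : Type} [CommRing O] [Algebra ℤ_[p] O] (C : Cyc p O)
  {G : Type} [Group G] [TopologicalSpace G] [IsTopologicalGroup G] {d : Pl G} {c : Chr p G}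
  {N : ℕ} {R : Rp p d N}

theorem ev_mO (R : Rp p d N) (g : G) (i j : Fin N) :
    C.ev (R.mO O g i j) = (1 : Matrix (Fin N) (Fin N) (ZMod p)) i j := by
  obtain ⟨t, ht⟩ := R.one g i j
  have h1 : R.ρ g i j = (1 : Matrix (Fin N) (Fin N) ℤ_[p]) i j + (p : ℤ_[p]) * t := by
    rw [Matrix.sub_apply] at ht
    linear_combination ht
  change C.ev (algebraMap ℤ_[p] O (R.ρ g i j)) = _
  rw [C.ev_int, h1, map_add, map_mul, map_natCast, ZMod.natCast_self, zero_mul, add_zero]
  by_cases hij : i = j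
  · subst hij
    rw [Matrix.one_apply_eq, Matrix.one_apply_eq, map_one]
  · rw [Matrix.one_apply_ne hij, Matrix.one_apply_ne hij, map_zero]

theorem ev_mulVec (R : Rp p d N) (g : G) (v : Fin N → O) (j : Fin N) :
    C.ev ((R.mO O g).mulVec v j) = C.ev (v j) := by
  rw [Matrix.mulVec, dotProduct, map_sum]
  have h1 : ∀ i : Fin N, C.ev (R.mO O g j i * v i) =
      (1 : Matrix (Fin N) (Fin N) (ZMod p)) j i * C.ev (v i) := by
    intro i
    rw [map_mul, ev_mO C]
  rw [Finset.sum_congr rfl fun i _ => h1 i]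
  have h2 : ∑ i, (1 : Matrix (Fin N) (Fin N) (ZMod p)) j i * C.ev (v i) =
      (1 : Matrix (Fin N) (Fin N) (ZMod p)).mulVec (fun i => C.ev (v i)) j := rfl
  rw [h2, Matrix.one_mulVec]

theorem ev_z1 : C.ev (C.z - 1) = 0 := by rw [map_sub, C.ev_z, map_one, sub_self]

theorem cancel {x y : O} (h : (C.z - 1) * x = (C.z - 1) * y) : x = y := by
  have h1 : (C.z - 1) * (x - y) = 0 := by rw [mul_sub, h, sub_self]
  exact sub_eq_zero.1 (C.inj _ h1)

theorem cancelV {x y : Fin N → O} (h : (C.z - 1) • x = (C.z - 1) • y) : x = y := by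
  funext j
  exact cancel C (congrFun h j)

variable {C}

/-- the difference -/
theorem isV_sub {F b : G → Fin N → O} (hF : IsV C c R F) (hb : IsV C c R b) :
    IsV C c R (fun g => F g - b g) where
  cont := by
    intro n g
    filter_upwards [hF.cont n g, hb.cont n g] with h h1 h2 j
    have e : (F h - b h) j - (F g - b g) j = (F h j - F g j) - (b h j - b g j) := by
      rw [Pi.sub_apply, Pi.sub_apply]; ring
    rw [e]
    exact dvd_sub (h1 j) (h2 j)
  mul := by
    intro g h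
    rw [hF.mul, hb.mul, Matrix.mulVec_sub, smul_sub]
    abel
  away := by
    intro i g hg h0
    rw [hF.away i g hg h0, hb.away i g hg h0, sub_zero]
  strict := by
    intro k
    obtain ⟨n₁, t₁, h1⟩ := hF.strict k
    obtain ⟨n₂, t₂, h2⟩ := hb.strict k
    refine ⟨n₁ + n₂, (C.z - 1) ^ n₂ • t₁ - (C.z - 1) ^ n₁ • t₂, ?_⟩
    intro g hg h0
    have e1 := h1 g hg h0
    have e2 := h2 g hg h0
    rw [Matrix.mulVec_sub, Matrix.mulVec_smul, Matrix.mulVec_smul]
    funext j
    have f1 := congrFun e1 j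
    have f2 := congrFun e2 j
    simp only [Pi.smul_apply, Pi.sub_apply, smul_eq_mul] at f1 f2 ⊢
    rw [pow_add]
    linear_combination (C.z - 1) ^ n₂ * f1 - (C.z - 1) ^ n₁ * f2

/-- one step -/
theorem step (hp2 : F4 R) (hk : ∀ k, ∃ g ∈ d.D k, c.χ g ≠ 0) (hT : MinU d c) (ht : S_tame)
    (hs : S_str) {F : G → Fin N → O}
    (hF : IsV C c R F) (h0 : F c.σ = 0) :
    ∃ F1 : G → Fin N → O, (∀ g j, F g j = (C.z - 1) * F1 g j) ∧ IsV C c R F1 ∧ F1 c.σ = 0 := by
  have hdiv : ∀ g j, (C.z - 1) ∣ F g j := by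
    intro g₀ j
    have hc : Continuous fun g => C.ev (F g j) := by
      have hloc : IsLocallyConstant fun g => C.ev (F g j) := by
        rw [IsLocallyConstant.iff_eventually_eq]
        intro g
        filter_upwards [hF.cont 1 g] with h h1
        obtain ⟨t, ht⟩ := h1 j
        have h2 := congrArg C.ev ht
        rw [pow_one, map_sub, map_mul, ev_z1, zero_mul, sub_eq_zero] at h2
        exact h2
      exact hloc.continuous
    have hm : ∀ g h, C.ev (F (g * h) j) = C.ev (F g j) + C.ev (F h j) := by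
      intro g h
      rw [hF.mul, Pi.add_apply, Pi.smul_apply, smul_eq_mul, map_add, map_mul, map_pow, C.ev_z,
        one_pow, one_mul, ev_mulVec C]
    obtain ⟨a, ha⟩ := hT (fun g => C.ev (F g j)) hc hm
      (fun i hi g hg => by
        change C.ev (F g j) = 0
        rw [hF.away i g hg (hi g hg), Pi.zero_apply, map_zero])
      (fun i hi => by
        obtain ⟨a, ha⟩ := ht p O C G d c N R F hp2 hF i hi
        exact ⟨a j, fun g hg => ha g hg j⟩)
      (fun k => by
        obtain ⟨a, ha⟩ := hs p O C G d c N R F hp2 hF k (hk k)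
        exact ⟨a j, fun g hg => ha g hg j⟩)
    have ha0 : a = 0 := by
      have h1 := ha c.σ
      simp only [h0, Pi.zero_apply, map_zero, c.hσ, mul_one] at h1
      exact h1.symm
    apply C.ker
    have h1 := ha g₀
    rw [ha0, zero_mul] at h1
    exact h1
  choose F1 hF1 using hdiv
  have hF1' : ∀ g, F g = (C.z - 1) • F1 g := fun g => by
    funext j
    rw [Pi.smul_apply, smul_eq_mul]
    exact hF1 g j
  refine ⟨F1, hF1, ⟨?_, ?_, ?_, ?_⟩, ?_⟩
  · intro n g
    filter_upwards [hF.cont (n + 1) g] with h h1 j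
    obtain ⟨t, ht⟩ := h1 j
    refine ⟨t, cancel C ?_⟩
    have e1 := hF1 h j
    have e2 := hF1 g j
    rw [pow_succ] at ht
    linear_combination ht - e1 + e2
  · intro g h
    apply cancelV C
    have e4 := hF.mul g h
    rw [hF1' (g * h), hF1' g, hF1' h, Matrix.mulVec_smul] at e4
    rw [e4, smul_add, smul_comm]
  · intro i g hg h1
    apply cancelV C
    rw [← hF1' g, hF.away i g hg h1, smul_zero]
  · intro k
    obtain ⟨n, t, h1⟩ := hF.strict k
    refine ⟨n + 1, t, fun g hg h2 => ?_⟩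
    rw [← h1 g hg h2, hF1' g, pow_succ, mul_smul]
  · apply cancelV C
    rw [← hF1' c.σ, h0, smul_zero]

theorem zero_of (hp2 : F4 R) (hk : ∀ k, ∃ g ∈ d.D k, c.χ g ≠ 0) (hT : MinU d c) (ht : S_tame)
    (hs : S_str) (n : ℕ) :
    ∀ F : G → Fin N → O, IsV C c R F → F c.σ = 0 → ∀ g j, (C.z - 1) ^ n ∣ F g j := by
  induction n with
  | zero =>
    intro F _ _ g j
    rw [pow_zero]
    exact one_dvd _
  | succ n ih =>
    intro F hF h0 g j
    obtain ⟨F1, h1, h2, h3⟩ := step hp2 hk hT ht hs hF h0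
    rw [h1 g j, pow_succ, mul_comm]
    exact mul_dvd_mul_left _ (ih F1 h2 h3 g j)

/-- the matrix `z ρ(σ) - 1` is `z - 1` times an invertible matrix -/
theorem exU (C : Cyc p O) (R : Rp p d N) (hp2 : F4 R) (g : G) : ∃ U : Matrix (Fin N) (Fin N) O,
    IsUnit U ∧ C.z • R.mO O g - 1 = (C.z - 1) • U := by
  have h1 : ∀ i j, ∃ w : O, algebraMap ℤ_[p] O ((R.ρ g - 1) i j) = (C.z - 1) ^ 2 * w := by
    intro i j
    exact C.sq _ (R.one g i j) (fun h => hp2 h g i j)
  choose W hW using h1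
  refine ⟨1 + (C.z * (C.z - 1)) • (Matrix.of W), ?_, ?_⟩
  · rw [Matrix.isUnit_iff_isUnit_det]
    apply C.unit
    rw [RingHom.map_det]
    have e : (C.ev.mapMatrix (1 + (C.z * (C.z - 1)) • (Matrix.of W)) :
        Matrix (Fin N) (Fin N) (ZMod p)) = 1 := by
      ext i j
      rw [RingHom.mapMatrix_apply, Matrix.map_apply, Matrix.add_apply, Matrix.smul_apply,
        smul_eq_mul, map_add, map_mul, map_mul, ev_z1, mul_zero, zero_mul, add_zero]
      by_cases hij : i = j
      · subst hij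
        rw [Matrix.one_apply_eq, Matrix.one_apply_eq, map_one]
      · rw [Matrix.one_apply_ne hij, Matrix.one_apply_ne hij, map_zero]
    rw [e, Matrix.det_one]
    exact one_ne_zero
  · ext i j
    have h2 := hW i j
    rw [Matrix.sub_apply, map_sub] at h2
    have h3 : algebraMap ℤ_[p] O ((1 : Matrix (Fin N) (Fin N) ℤ_[p]) i j) =
        (1 : Matrix (Fin N) (Fin N) O) i j := by
      by_cases hij : i = j
      · subst hij
        rw [Matrix.one_apply_eq, Matrix.one_apply_eq, map_one]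
      · rw [Matrix.one_apply_ne hij, Matrix.one_apply_ne hij, map_zero]
    rw [h3] at h2
    have h4 : R.mO O g i j = algebraMap ℤ_[p] O (R.ρ g i j) := rfl
    rw [Matrix.sub_apply, Matrix.smul_apply, Matrix.smul_apply, Matrix.add_apply,
      Matrix.smul_apply, Matrix.of_apply, smul_eq_mul, smul_eq_mul, smul_eq_mul, h4]
    linear_combination C.z * h2

end

end CritP

open CritP in
theorem s_crit (hb : S_bt) (ht : S_tame) (hs : S_str) : S_crit := by
  intro p _ O _ _ C G _ _ _ d c N R F hp2 hk hT hF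
  obtain ⟨U, hU, hU1⟩ := exU C R hp2 c.σ
  obtain ⟨V, hV⟩ := hU.exists_right_inv
  obtain ⟨b, hb1, -, hb3⟩ := hb p O C G d c N R (V.mulVec (F c.σ)) hp2
  have h5 : U.mulVec (V.mulVec (F c.σ)) = F c.σ := by
    rw [Matrix.mulVec_mulVec, hV, Matrix.one_mulVec]
  have h6 : b c.σ = F c.σ := by
    apply cancelV C
    rw [hb1, c.hσ]
    have hv : (1 : ZMod p).val = 1 := by
      haveI : Fact (1 < p) := ⟨(Fact.out : p.Prime).one_lt⟩
      exact ZMod.val_one p
    rw [hv, pow_one]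
    have h7 : C.z • (R.mO O c.σ).mulVec (V.mulVec (F c.σ)) - V.mulVec (F c.σ) =
        (C.z • R.mO O c.σ - 1).mulVec (V.mulVec (F c.σ)) := by
      rw [Matrix.sub_mulVec, Matrix.smul_mulVec, Matrix.one_mulVec]
    rw [h7, hU1, Matrix.smul_mulVec, h5]
  have hF' := isV_sub hF hb3
  have h0 : (fun g => F g - b g) c.σ = 0 := by
    change F c.σ - b c.σ = 0
    rw [h6, sub_self]
  have h1 : ∀ g, F g = b g := fun g => by
    funext j
    exact sub_eq_zero.1 (C.sep _ fun n => zero_of hp2 hk hT ht hs n _ hF' h0 g j)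
  exact ⟨V.mulVec (F c.σ), fun g => by rw [h1 g, hb1 g]⟩


/-- A2. The comparison. -/
def S_cmpD : Prop := ∀ (p : ℕ) [Fact p.Prime]
  (G : Type) [Group G] [TopologicalSpace G] [IsTopologicalGroup G] (d : Pl G)
  (c : Chr p G), (∀ k, ∃ g ∈ d.D k, c.χ g ≠ 0) → MinU d c →
  ∀ (N : ℕ) (R : Rp p d N), F4 R → ∀ (f : G → Fin N → ℤ_[p]), SelD R c.ker f →
    ∃ F : G → Fin N → ℤ_[p], CocV R ⊤ F ∧ (∀ i, ∀ g ∈ d.I i, F g = 0) ∧
      ∃ (m : ℕ) (z : Fin N → ℤ_[p]), ∀ g ∈ c.ker,
        (p : ℤ_[p]) ^ m • f g = F g + ((R.ρ g).mulVec z - z)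

namespace CmpD26

variable {p : ℕ} [hp : Fact p.Prime] {G : Type} [Group G] [TopologicalSpace G] {d : Pl G} {N : ℕ}

/-- the same inertia groups, without the groups `D k` -/
def dE (d : Pl G) : Pl G where
  ι := d.ι
  I := d.I
  DI := d.DI
  I_le := d.I_le
  I_nor := d.I_nor
  I_conj := d.I_conj
  κ := Empty
  D := fun k => k.elim
  D_conj := fun k => k.elim

/-- the same representation -/
def rE (R : Rp p d N) : Rp p (dE d) N where
  ρ := R.ρ
  cont := R.cont
  one := R.one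
  triv := R.triv

theorem rE_ρ (R : Rp p d N) : (rE R).ρ = R.ρ := rfl

/-- the linear map `ρ(g) - 1` -/
noncomputable def L (R : Rp p d N) (g : G) : (Fin N → ℤ_[p]) →ₗ[ℤ_[p]] (Fin N → ℤ_[p]) :=
  (R.ρ g).mulVecLin - LinearMap.id

theorem Lmap_apply (R : Rp p d N) (g : G) (v : Fin N → ℤ_[p]) :
    L R g v = (R.ρ g).mulVec v - v := rfl

theorem toO_apply {O : Type} [CommRing O] [Algebra ℤ_[p] O] (x : Fin N → ℤ_[p]) (j : Fin N) :
    toO O x j = algebraMap ℤ_[p] O (x j) := rfl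

theorem mO_toO {O : Type} [CommRing O] [Algebra ℤ_[p] O] (R : Rp p d N) (g : G)
    (x : Fin N → ℤ_[p]) : (R.mO O g).mulVec (toO O x) = toO O ((R.ρ g).mulVec x) := by
  funext j
  exact (RingHom.map_mulVec (algebraMap ℤ_[p] O) (R.ρ g) x j).symm

end CmpD26

open CmpD26

/-- A2. -/
theorem s_cmpD (h1 : Pool.Agent.NH7.GU.S_cyc) (h2 : S_crit) (h3 : S_corD)
    (h4 : Pool.Agent.NH7.BK.S_corZ) : S_cmpD := by
  intro p _ G _ _ _ d c hk hS N R hp2 f hf
  obtain ⟨O, _, _, ⟨C⟩⟩ := h1 p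
  obtain ⟨FO, hFO, hFk⟩ := h3 p O C G d c N R f hf hk
  obtain ⟨t, ht⟩ := h2 p O C G d c N R FO hp2 hk hS hFO
  choose a' ha' using fun j => C.span (t j)
  obtain ⟨a, haa⟩ : ∃ a : ZMod p → Fin N → ℤ_[p], ∀ i j, a i j = a' j i := ⟨_, fun i j => rfl⟩
  have ha : ∀ j, t j = ∑ i, algebraMap ℤ_[p] O (a i j) * C.z ^ i.val := by
    intro j
    rw [ha' j]
    exact Finset.sum_congr rfl fun i _ => by rw [haa]
  have hfE : SelV (rE R) c.ker f :=
    ⟨⟨hf.coc.cont, hf.coc.mul⟩, hf.away, fun k => k.elim⟩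
  obtain ⟨FZ, hFZ, hFZk'⟩ := h4 p G (dE d) c N (rE R) f hfE
  have hFZk : ∀ g ∈ c.ker, FZ g = ∑ i : ZMod p,
      (R.ρ (c.σ ^ i.val)).mulVec (f ((c.σ ^ i.val)⁻¹ * g * c.σ ^ i.val)) := hFZk'
  obtain ⟨cc, hcc⟩ : ∃ cc : ZMod p → G → Fin N → ℤ_[p], ∀ i g, cc i g =
    (R.ρ (c.σ ^ i.val)).mulVec (f ((c.σ ^ i.val)⁻¹ * g * c.σ ^ i.val)) := ⟨_, fun i g => rfl⟩
  obtain ⟨A, hA⟩ : ∃ A : Fin N → ℤ_[p], A = ∑ i, a i := ⟨_, rfl⟩
  have hcc0 : ∀ g, cc 0 g = f g := by
    intro g
    rw [hcc, ZMod.val_zero, pow_zero, map_one, Matrix.one_mulVec]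
    simp
  -- the shift
  have hz : ∀ i : ZMod p, C.z * C.z ^ i.val = C.z ^ (i + 1).val := by
    intro i
    have e : ((i.val + 1 : ℕ) : ZMod p) = i + 1 := by
      push_cast
      rw [ZMod.natCast_zmod_val]
    rw [← e, ZMod.val_natCast, ← pow_succ', pow_eq_pow_mod _ C.z_pow]
  have hmt : ∀ g j, (R.mO O g).mulVec t j =
      ∑ i, algebraMap ℤ_[p] O ((R.ρ g).mulVec (a i) j) * C.z ^ i.val := by
    intro g j
    have e1 : t = ∑ i, C.z ^ i.val • toO O (a i) := by
      funext j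
      rw [ha, Finset.sum_apply]
      refine Finset.sum_congr rfl fun i _ => ?_
      rw [Pi.smul_apply, toO_apply, smul_eq_mul, mul_comm]
    rw [e1, Matrix.mulVec_sum, Finset.sum_apply]
    refine Finset.sum_congr rfl fun i _ => ?_
    rw [Matrix.mulVec_smul, mO_toO, Pi.smul_apply, toO_apply, smul_eq_mul, mul_comm]
  have key : ∀ g ∈ c.ker, ∀ i j, cc (i - 1) g - cc i g - L R g (a i) =
      cc (j - 1) g - cc j g - L R g (a j) := by
    intro g hg i i'
    funext j
    refine C.rel (fun i => (cc (i - 1) g - cc i g - L R g (a i)) j) ?_ i i'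
    have e1 : FO g j = ∑ i : ZMod p, algebraMap ℤ_[p] O (cc i g j) * C.z ^ i.val := by
      rw [hFk g hg, Finset.sum_apply]
      refine Finset.sum_congr rfl fun i _ => ?_
      rw [Pi.smul_apply, toO_apply, hcc, smul_eq_mul, mul_comm]
    have e2 : C.z * FO g j = ∑ i : ZMod p, algebraMap ℤ_[p] O (cc (i - 1) g j) * C.z ^ i.val := by
      rw [e1, Finset.mul_sum]
      refine Fintype.sum_equiv (Equiv.addRight (1 : ZMod p)) _ _ fun i => ?_
      show C.z * (algebraMap ℤ_[p] O (cc i g j) * C.z ^ i.val) =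
        algebraMap ℤ_[p] O (cc (i + 1 - 1) g j) * C.z ^ (i + 1).val
      rw [← hz, add_sub_cancel_right]
      ring
    have e3 := congrFun (ht g) j
    have hg0 : c.χ g = 0 := hg
    rw [hg0, ZMod.val_zero, pow_zero, one_smul, Pi.smul_apply, Pi.sub_apply, smul_eq_mul] at e3
    have e4 : ∑ i : ZMod p, algebraMap ℤ_[p] O ((cc (i - 1) g - cc i g - L R g (a i)) j) *
        C.z ^ i.val = C.z * FO g j - FO g j - ((R.mO O g).mulVec t j - t j) := by
      rw [e2, hmt, ha, e1, ← Finset.sum_sub_distrib, ← Finset.sum_sub_distrib,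
        ← Finset.sum_sub_distrib]
      refine Finset.sum_congr rfl fun i _ => ?_
      rw [Pi.sub_apply, Pi.sub_apply, Lmap_apply, Pi.sub_apply, map_sub, map_sub, map_sub]
      ring
    rw [e4]
    linear_combination e3
  have hsum : ∀ g, ∑ i : ZMod p, (cc (i - 1) g - cc i g) = 0 := by
    intro g
    rw [Finset.sum_sub_distrib, sub_eq_zero]
    exact Fintype.sum_equiv (Equiv.subRight (1 : ZMod p)) _ _ fun i => rfl
  have key2 : ∀ g ∈ c.ker, ∀ j, (p : ℤ_[p]) • (cc (j - 1) g - cc j g) =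
      L R g ((p : ℤ_[p]) • a j - A) := by
    intro g hg j
    have e1 : ∑ i : ZMod p, (cc (i - 1) g - cc i g - L R g (a i)) =
        (p : ℤ_[p]) • (cc (j - 1) g - cc j g - L R g (a j)) := by
      rw [Finset.sum_congr rfl fun i _ => key g hg i j, Finset.sum_const, Finset.card_univ,
        ZMod.card, ← Nat.cast_smul_eq_nsmul ℤ_[p]]
    have e2 : ∑ i : ZMod p, (cc (i - 1) g - cc i g - L R g (a i)) = -(L R g A) := by
      rw [Finset.sum_sub_distrib, hsum, hA, map_sum, zero_sub]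
    rw [e2, smul_sub] at e1
    rw [map_sub, map_smul]
    have e3 : (p : ℤ_[p]) • (cc (j - 1) g - cc j g) =
      (p : ℤ_[p]) • (cc (j - 1) g - cc j g) - (p : ℤ_[p]) • L R g (a j) +
        (p : ℤ_[p]) • L R g (a j) := by abel
    rw [e3, ← e1]
    abel
  have hB : ∀ n : ℕ, ∃ B : Fin N → ℤ_[p], ∀ g ∈ c.ker,
      (p : ℤ_[p]) • (cc (n : ZMod p) g - cc 0 g) = L R g B := by
    intro n
    induction n with
    | zero => exact ⟨0, fun g _ => by rw [Nat.cast_zero, sub_self, smul_zero, map_zero]⟩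
    | succ n ih =>
      obtain ⟨B, hB⟩ := ih
      refine ⟨B - ((p : ℤ_[p]) • a ((n : ZMod p) + 1) - A), fun g hg => ?_⟩
      have e1 := key2 g hg ((n : ZMod p) + 1)
      rw [add_sub_cancel_right] at e1
      have e2 := hB g hg
      rw [map_sub, ← e1, ← e2, ← smul_sub]
      push_cast
      congr 1
      abel
  choose B hB using hB
  have main : ∀ g ∈ c.ker, (p : ℤ_[p]) • (FZ g - (p : ℤ_[p]) • f g) =
      L R g (∑ j : ZMod p, B j.val) := by
    intro g hg
    have e1 : FZ g = ∑ j : ZMod p, cc j g := by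
      rw [hFZk g hg]
      exact Finset.sum_congr rfl fun j _ => (hcc j g).symm
    have e2 : FZ g - (p : ℤ_[p]) • f g = ∑ j : ZMod p, (cc j g - cc 0 g) := by
      rw [Finset.sum_sub_distrib, ← e1, Finset.sum_const, Finset.card_univ, ZMod.card,
        ← Nat.cast_smul_eq_nsmul ℤ_[p], hcc0]
    rw [e2, Finset.smul_sum, map_sum]
    refine Finset.sum_congr rfl fun j _ => ?_
    have e3 := hB j.val g hg
    rw [ZMod.natCast_zmod_val] at e3
    exact e3
  refine ⟨fun g => (p : ℤ_[p]) • FZ g, ⟨?_, fun g hg h hh => ?_⟩,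
    fun i g hg => ?_, 2, -(∑ j : ZMod p, B j.val), fun g hg => ?_⟩
  · exact hFZ.coc.cont.const_smul (p : ℤ_[p])
  · have e0 : FZ (g * h) = FZ g + (R.ρ g).mulVec (FZ h) := hFZ.coc.mul g hg h hh
    show (p : ℤ_[p]) • FZ (g * h) = (p : ℤ_[p]) • FZ g + (R.ρ g).mulVec ((p : ℤ_[p]) • FZ h)
    rw [e0, smul_add, Matrix.mulVec_smul]
  · have e0 : FZ g = 0 := hFZ.away i g hg (Subgroup.mem_top g)
    show (p : ℤ_[p]) • FZ g = 0
    rw [e0, smul_zero]
  have e1 := main g hg
  have e2 : (R.ρ g).mulVec (-(∑ j : ZMod p, B j.val)) - -(∑ j : ZMod p, B j.val) =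
      -(L R g (∑ j : ZMod p, B j.val)) := by
    rw [← map_neg, Lmap_apply]
  rw [e2, ← e1, smul_sub, smul_smul, ← pow_two]
  abel


theorem t_cmpD : S_cmpD :=
  s_cmpD Pool.Agent.NH7.GU.s_cyc (s_crit s_bt (s_tame s_bt) (s_str s_bt))
    (s_corD (Pool.Agent.NH7.BK.s_corO Pool.Agent.NH7.BK.s_cor))
    (Pool.Agent.NH7.BK.s_corZ Pool.Agent.NH7.BK.s_cor)

end Pool.Agent.NH7.GH.P2
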