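import Pool.Agent.NH7.GH.Fin
import Pool.Agent.NH7.GH.P2.Crit

/-!
# Going up over function fields over Hilbertian fields: the theorem in terms of characters, all `p`
-/

set_option autoImplicit false
set_option linter.unusedSectionVars false

namespace Pool.Agent.NH7.GH

open Pool.Agent.H525R3.FFp Matrix
open Pool.Agent.NH7.GU (Chr)
open Pool.Agent.NH7.BK (Pl Rp CocV S_int)
open Pool.Agent.NH7.GF
open P2 (MinU F4)

variable {k K : Type} [Field k] [CharZero k] [Field K] [Algebra k K] [FF.IsFF k K] {p : ℕ}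
  [hp : Fact p.Prime] {ζ : K}

/-- **The characters with trivial residual Selmer group** -/
theorem main_charU (hmn : S_mn) (hext : S_ext) (hcnj : S_cnj) (hplc : S_plcH)
    (hζ : IsPrimitiveRoot ζ p) (hk : Hilb k) (hpic : PicF k K p)
    {S B : Set (ValuationSubring K)} (hS : S.Finite) (hB : B.Finite)
    (hne : ∃ v : FF.Place k K, v.O ∈ S)
    {χ₀ : GK K → ZMod p} (h0 : Hm χ₀) :
    ∃ χ : GK K → ZMod p, Hm χ ∧
      (∀ A : ValuationSubring (SeparableClosure K), A ≠ ⊤ → Trv k A →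
        (A.comap (algebraMap K (SeparableClosure K)) ∈ B ∨
          A.comap (algebraMap K (SeparableClosure K)) ∈ S) → ∀ g ∈ Dec A, χ g = χ₀ g) ∧
      (∃ A : ValuationSubring (SeparableClosure K), A ≠ ⊤ ∧ Trv k A ∧
        A.comap (algebraMap K (SeparableClosure K)) ∉ B ∧
        A.comap (algebraMap K (SeparableClosure K)) ∉ S ∧ ∃ g ∈ Inr A, χ g ≠ 0) ∧
      ∀ c : Chr p (GK K), c.χ = χ → MinU (plH k S) c := by
  classical
  have hinj : Function.Injective (fun v : FF.Place k K => v.O) := fun v w hvw => OH_inj hvw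
  have hfS : {v : FF.Place k K | v.O ∈ S}.Finite := hS.preimage hinj.injOn
  have hfB : {v : FF.Place k K | v.O ∈ B}.Finite := hB.preimage hinj.injOn
  obtain ⟨v0, hv0⟩ := hne
  obtain ⟨χ, hχ, h1, ⟨v, hvB, hvS, g, hg, hg0⟩, h2⟩ := hmn k K p ζ hζ hk hpic
    hfS.toFinset hfB.toFinset ⟨v0, hfS.mem_toFinset.2 hv0⟩ χ₀ h0
  have hab : ∀ v : FF.Place k K, (Av v).comap (algebraMap K (SeparableClosure K)) = v.O :=
    AvH_ab hext
  have hloc : ∀ A : ValuationSubring (SeparableClosure K), A ≠ ⊤ → Trv k A →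
        (A.comap (algebraMap K (SeparableClosure K)) ∈ B ∨
          A.comap (algebraMap K (SeparableClosure K)) ∈ S) → ∀ g ∈ Dec A, χ g = χ₀ g := by
    intro A hA hAt hAS g hg
    obtain ⟨v, hv⟩ := comapH_ne (k := k) hplc hA hAt
    obtain ⟨a, ha⟩ := AvH_mv hext hcnj hv
    have hv' : A.comap (algebraMap K (SeparableClosure K)) = v.O := hv
    rw [hv'] at hAS
    have h3 : a * g * a⁻¹ ∈ Dec (Av v) := by
      rw [← ha]
      exact (Dec_mv a g).1 hg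
    have h4 := h1 v (by
      rw [Set.Finite.mem_toFinset, Set.Finite.mem_toFinset]
      exact hAS) _ h3
    rwa [hm_conj hχ, hm_conj h0] at h4
  have hAv : ∀ v : FF.Place k K, Av v ≠ ⊤ ∧ Trv k (Av v) := fun v =>
    ⟨ab_ne (AvH_ab hext v), ab_trv (AvH_ab hext v)⟩
  refine ⟨χ, hχ, hloc, ⟨Av v, (hAv v).1, (hAv v).2, ?_, ?_, g, hg, hg0⟩, ?_⟩
  · rw [hab]
    rw [Set.Finite.mem_toFinset] at hvB
    exact hvB
  · rw [hab]
    rw [Set.Finite.mem_toFinset] at hvS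
    exact hvS
  · rintro c rfl x hx1 hx2 ha hb hc
    refine h2 x ⟨hx1, hx2⟩ (fun v hv hI => ?_) (fun v hv hI => ?_) fun v hv => ?_
    · rw [Set.Finite.mem_toFinset] at hv
      exact ha ⟨Av v, (hAv v).1, (hAv v).2, by rw [hab]; exact hv⟩ hI
    · rw [Set.Finite.mem_toFinset] at hv
      exact hb ⟨Av v, (hAv v).1, (hAv v).2, by rw [hab]; exact hv⟩ hI
    · rw [Set.Finite.mem_toFinset] at hv
      exact hc ⟨Av v, (hAv v).1, (hAv v).2, by rw [hab]; exact hv⟩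


/-- **The theorem in terms of characters** -/
theorem main_selU (hmn : S_mn) (hext : S_ext) (hcnj : S_cnj) (hplc : S_plcH)
    (hcmp : P2.S_cmpD) (hint : S_int)
    (hζ : IsPrimitiveRoot ζ p) (hk : Hilb k) (hpic : PicF k K p)
    {S B : Set (ValuationSubring K)} (hS : S.Finite) (hB : B.Finite)
    (hne : ∃ v : FF.Place k K, v.O ∈ S)
    {χ₀ : GK K → ZMod p} (h0 : Hm χ₀)
    (hram : ∀ A : ValuationSubring (SeparableClosure K), A ≠ ⊤ → Trv k A →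
      A.comap (algebraMap K (SeparableClosure K)) ∈ S → ∃ g ∈ Inr A, χ₀ g ≠ 0) :
    ∃ (χ : GK K → ZMod p) (hχ : Hm χ), (∃ σ, χ σ = 1) ∧
      (∀ A : ValuationSubring (SeparableClosure K), A ≠ ⊤ → Trv k A →
        A.comap (algebraMap K (SeparableClosure K)) ∈ B → ∀ g ∈ Dec A, χ g = χ₀ g) ∧
      (∀ A : ValuationSubring (SeparableClosure K), A ≠ ⊤ → Trv k A →
        A.comap (algebraMap K (SeparableClosure K)) ∈ S → ∃ g ∈ Inr A, χ g ≠ 0) ∧
      (∃ A : ValuationSubring (SeparableClosure K), A ≠ ⊤ ∧ Trv k A ∧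
        A.comap (algebraMap K (SeparableClosure K)) ∉ B ∧ ∃ g ∈ Inr A, χ g ≠ 0) ∧
      ∀ (N : ℕ) (ρ : GK K →* Matrix (Fin N) (Fin N) ℤ_[p]), RepH k S ρ →
        (p = 2 → ∀ g i j, (4 : ℤ_[p]) ∣ (ρ g - 1) i j) →
        ∀ c : kerX hχ → Fin N → ℚ_[p], SelH k S ρ (kerX hχ) c →
          ∃ c' : (⊤ : Subgroup (GK K)) → Fin N → ℚ_[p], BasH k S ρ c' ∧ ∃ x : Fin N → ℚ_[p],
            ∀ (σ : kerX hχ) (τ : (⊤ : Subgroup (GK K))), (τ : GK K) = σ →
              c σ = c' τ + (mQ (ρ σ) x - x) := by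
  classical
  obtain ⟨χ, hχ, hloc, ⟨A, hA, hAt, hAB, hAS, g, hg, hg0⟩, hsel⟩ :=
    main_charU hmn hext hcnj hplc hζ hk hpic hS hB hne h0
  obtain ⟨σ, hσ⟩ := hm_ex hχ hg0
  have hramS : ∀ A : ValuationSubring (SeparableClosure K), A ≠ ⊤ → Trv k A →
        A.comap (algebraMap K (SeparableClosure K)) ∈ S → ∃ g ∈ Inr A, χ g ≠ 0 := by
    intro A hA hAt hAS
    obtain ⟨g, hg, hg0⟩ := hram A hA hAt hAS
    exact ⟨g, hg, by rwa [hloc A hA hAt (Or.inr hAS) g (Inr_le A hg)]⟩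
  refine ⟨χ, hχ, ⟨σ, hσ⟩, fun A hA hAt hAB g hg => hloc A hA hAt (Or.inl hAB) g hg, hramS,
    ⟨A, hA, hAt, hAB, g, hg, hg0⟩, fun N ρ hρ hρ4 c hc => ?_⟩
  let ch : Chr p (GK K) := ⟨χ, hχ.c, hχ.m, σ, hσ⟩
  have hmin : MinU (plH k S) ch := hsel ch rfl
  have hkk : ch.ker = kerX hχ := Subgroup.ext fun g => Iff.rfl
  have hnon' : ∀ i : (plH k S).κ, ∃ g ∈ (plH k S).D i, ch.χ g ≠ 0 := fun i => by
    obtain ⟨g, hg, hg0⟩ := hramS i.1 i.2.1 i.2.2.1 i.2.2.2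
    exact ⟨g, Inr_le _ hg, hg0⟩
  obtain ⟨l, f, hf, hfc⟩ := selD_of_selH hint hρ (kerX_normal hχ) (kerX_closed hχ) hc
  obtain ⟨F, hF, hFI, m, z, hz⟩ := hcmp p (GK K) (plH k S) ch hnon' hmin N (repDH hρ) hρ4 f
    (by rw [hkk]; exact hf)
  refine ⟨fun σ => ((p : ℚ_[p]) ^ (m + l))⁻¹ • cQ (F σ), ⟨?_, fun σ τ => ?_,
    fun A hA hAt hAS σ hσ => ?_⟩, ((p : ℚ_[p]) ^ (m + l))⁻¹ • cQ z, fun σ τ hστ => ?_⟩
  · exact (cQ_cont.comp hF.cont).const_smul (((p : ℚ_[p]) ^ (m + l))⁻¹)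
  · have e := hF.mul _ σ.2 _ τ.2
    have e1 : cQ ((repDH hρ).ρ σ *ᵥ F τ) = mQ (ρ σ) (cQ (F τ)) := cQ_mul _ _
    rw [Subgroup.coe_mul, e, cQ_add, e1, mQ_smul, smul_add]
  · have e := hFI ⟨A, hA, hAt, hAS⟩ σ hσ
    rw [e, cQ_zero, smul_zero]
  · have e := congrArg cQ (hz σ (by rw [hkk]; exact σ.2))
    have e1 : cQ ((repDH hρ).ρ σ *ᵥ z) = mQ (ρ σ) (cQ z) := cQ_mul _ _
    rw [cQ_smul, cQ_add, cQ_sub, e1, hfc, smul_smul, ← pow_add] at e
    beta_reduce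
    rw [hστ, mQ_smul, ← smul_sub, ← smul_add, ← e, smul_smul,
      inv_mul_cancel₀ (pow_ne_zero _ pQ_ne), one_smul]


end Pool.Agent.NH7.GH
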